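import Pool.Agent.K3h22.EX.Stm2

/-! EX project (helper22), brick PREP: lower bound near a regular direction. -/

set_option autoImplicit false

namespace Pool.Agent.K3h91.EX

open MvPolynomial Filter Topology Metric Set Pool.Agent.K3h22.EX

theorem top_ne_zero {s : ℕ} {q : MvPolynomial (Fin s) ℂ} (h : q ≠ 0) : top q ≠ 0 := by
  classical
  have hne : q.support.Nonempty := by
    rw [Finset.nonempty_iff_ne_empty]
    intro h0
    exact h (MvPolynomial.support_eq_empty.mp h0)
  obtain ⟨m, hm, hd⟩ := Finset.exists_mem_eq_sup q.support hne (fun s => s.sum fun _ e => e)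
  intro h0
  have h1 : coeff m (top q) = coeff m q := by
    unfold top
    rw [coeff_homogeneousComponent, if_pos]
    rw [MvPolynomial.totalDegree, hd]
    rfl
  rw [h0, coeff_zero] at h1
  exact (MvPolynomial.mem_support_iff.mp hm) h1.symm

theorem expo_sub {s : ℕ} {β : Type} [Fintype β] (p : β → MvPolynomial (Fin s) ℂ) (m m' : β →₀ ℕ) :
    expo p m - expo p m' =
      ∑ b, (((m b : ℤ) - (m' b : ℤ) : ℤ) : MvPolynomial (Fin s) ℂ) * p b := by
  unfold expo
  rw [← Finset.sum_sub_distrib]
  refine Finset.sum_congr rfl fun b _ => ?_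
  push_cast
  ring

theorem t_PREP : S_DOM → S_PREP := by
  classical
  intro hDOM s β _ p ζ hreg G hG
  have hpair : ∀ m m' : β →₀ ℕ, m ≠ m' → 0 < (expo p m - expo p m').totalDegree ∧
      (eval ζ (top (expo p m - expo p m'))).re ≠ 0 := by
    intro m m' hmm
    rw [expo_sub]
    refine hreg (fun b => (m b : ℤ) - (m' b : ℤ)) ?_
    intro h0
    apply hmm
    ext b
    have := congrFun h0 b
    simp only [Pi.zero_apply] at this
    omega
  have hopen : ∀ᶠ ζ' in 𝓝 ζ, ∀ x ∈ G.support ×ˢ G.support, x.1 ≠ x.2 →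
      (eval ζ' (top (expo p x.1 - expo p x.2))).re ≠ 0 := by
    rw [Filter.eventually_all_finset]
    intro x _
    by_cases hx : x.1 = x.2
    · exact Filter.Eventually.of_forall fun ζ' h => absurd hx h
    · have hc : Continuous fun ζ' : Fin s → ℂ =>
          (eval ζ' (top (expo p x.1 - expo p x.2))).re :=
        Complex.continuous_re.comp (MvPolynomial.continuous_eval _)
      have h1 := hc.continuousAt.eventually_ne (hpair x.1 x.2 hx).2
      exact h1.mono fun ζ' h _ => h
  obtain ⟨ε, hε, hball⟩ := Metric.eventually_nhds_iff_ball.mp hopen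
  refine ⟨ε, hε, ∏ m ∈ G.support, top (coeff m G), ?_, ?_⟩
  · rw [Finset.prod_ne_zero_iff]
    intro m hm
    exact top_ne_zero (MvPolynomial.mem_support_iff.mp hm)
  · intro ζ' hζ' hq c δ hδ
    refine hDOM s β p c ζ' G hG ?_ ?_ δ (fun m _ b _ => hδ b)
    · rw [map_prod, Finset.prod_ne_zero_iff] at hq
      exact hq
    · intro m hm m' hm' hmm
      exact ⟨(hpair m m' hmm).1, hball ζ' hζ' (m, m') (Finset.mk_mem_product hm hm') hmm⟩

end Pool.Agent.K3h91.EX
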